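import Pool.Agent.X156.LD.Main2

/-!
# Defects of Leopoldt's conjecture in Galois extensions
-/

set_option autoImplicit false
set_option linter.unusedSectionVars false

namespace Pool.Agent.Results.MP_5f2860_nt.DefectsOfGaloisExtensions

open NumberField Module Pool.Agent.X156.LD Pool.Agent.X328.LP Pool.Agent.W332.SL6 Pool.Agent.W289.SL

/-- **Leopoldt's conjecture in Galois extensions: congruences for the defect.**

(1) Let `F/k` be an extension of number fields whose group `G` of automorphisms is a `q`-group. Then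
`δ(F, p) ≡ δ(F^{G'}, p)` modulo `q [ℚ_p(ζ_q) : ℚ_p]`, for every prime `p`.

(2) If moreover `F/k` is Galois and the unit rank of `k` is zero, then `q [ℚ_p(ζ_q) : ℚ_p]` divides
`δ(F, p)`.

(3) Let `F/k` be Galois, the unit rank of `k` zero, `w` an infinite place of `F`, `H` a subgroup of
`G`. Then `δ(F^H, p)` is a sum of numbers `dim τ^H`, where `τ` is an irreducible representation of
`G` over `ℚ_p` with several vectors fixed by the stabiliser of `w`. -/
theorem result (p q : ℕ) [hp : Fact p.Prime] [hq : Fact q.Prime] (k F : Type) [Field k]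
    [NumberField k] [Field F] [NumberField F] [Algebra k F] :
    (IsPGroup q (F ≃ₐ[k] F) → ∀ ζ : ℂ_[p], IsPrimitiveRoot ζ q → ∃ δ δ' : ℕ, IsDefect p F δ ∧
      IsDefect p (IntermediateField.fixedField (commutator (F ≃ₐ[k] F))) δ' ∧
      δ ≡ δ' [MOD q * (minpoly ℚ_[p] ζ).natDegree]) ∧
    (IsGalois k F → Units.rank k = 0 → IsPGroup q (F ≃ₐ[k] F) →
      ∀ ζ : ℂ_[p], IsPrimitiveRoot ζ q →
      ∃ δ : ℕ, IsDefect p F δ ∧ q * (minpoly ℚ_[p] ζ).natDegree ∣ δ) ∧
    (IsGalois k F → Units.rank k = 0 → ∀ (w : InfinitePlace F) (H : Subgroup (F ≃ₐ[k] F)),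
      ∃ δ : ℕ, IsDefect p (IntermediateField.fixedField H) δ ∧
        ∀ M : AddSubmonoid ℕ,
          IrrMem ℚ_[p] (MulAction.stabilizer (F ≃ₐ[k] F) w) H M → δ ∈ M) := by
  have hfd : FiniteDimensional k F := Module.Finite.of_restrictScalars_finite ℚ k F
  obtain ⟨L, hL⟩ := exists_iwasawaLog p
  have h1 : IsPGroup q (F ≃ₐ[k] F) → ∀ ζ : ℂ_[p], IsPrimitiveRoot ζ q →
      finrank ℚ_[p] (Pool.Agent.X156.LD.KQ hL F) ≡
        finrank ℚ_[p] (fixed (kerRep hL k F) (commutator (F ≃ₐ[k] F)))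
        [MOD q * (minpoly ℚ_[p] ζ).natDegree] :=
    fun hG ζ hζ => pgroup_modEq hG (kerRep hL k F) hζ
  refine ⟨fun hG ζ hζ => ⟨_, _, isDefect hL, isDefect_fixed hL _, h1 hG ζ hζ⟩, ?_, ?_⟩
  · intro hgal hk hG ζ hζ
    refine ⟨_, isDefect hL, ?_⟩
    have h2 : finrank ℚ_[p] (fixed (kerRep hL k F) (commutator (F ≃ₐ[k] F))) = 0 := by
      rw [← finrank_fix', ← finrank_fix, KQ_eq_bot hL (leopoldt_ab p hk), finrank_bot]
    have h3 := h1 hG ζ hζ
    rw [h2] at h3
    exact (Nat.modEq_zero_iff_dvd).1 h3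
  · intro hgal hk w H
    exact ⟨_, isDefect_fixed hL H, fun M hM => mem_defect hL hk w H M hM⟩

end Pool.Agent.Results.MP_5f2860_nt.DefectsOfGaloisExtensions
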