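import Pool.Agent.X328.LP.Main2

/-!
# Leopoldt's conjecture when a Hecke algebra has no nilpotent elements

Let `F / k` be a Galois extension of number fields, where `k` has only finitely many units (`k` is
`ℚ` or imaginary quadratic), let `G` be its group, `D` the decomposition group of an infinite place
and `e` the idempotent `(∑ d) / #D` of `ℚ_p[G]`.

(1) If the Hecke algebra `e ℚ_p[G] e` has no nilpotent elements then Leopoldt's conjecture at `p`
holds for `F` and all its subfields. More generally, for a field `k ⊆ K ⊆ F`, belonging to a
subgroup `H` with idempotent `h`, it is enough that the ideal `e ℚ_p[G] h ℚ_p[G] e` of the Hecke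
algebra has no nilpotent elements.

(2) For example Leopoldt's conjecture at `p = 2` holds for all subfields of `F` if `G` is the
product of the quaternion group of order `8` and an elementary abelian `2`-group.

The theorem of Ax and Brumer is the case of a commutative group `G`; more generally it was known
that the commutativity of `e ℚ̄_p[G] e` (multiplicities at most one) is sufficient. Here the
coefficients are in `ℚ_p`, and multiplicities up to the Schur indices are allowed. In (2) the
multiplicities are two.

Proof. There is a unit `u` invariant under `D` (Minkowski) whose conjugates generate a subgroup of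
finite index. The elements `a` of `ℚ_p[G]` such that `a u` is in the kernel of the logarithms are a
left ideal `N`. As the Hecke algebra is a product of division algebras there is a central
idempotent `z` of `ℚ_p[G]` with `z e ∈ N e` and `x e = x e z` for all `x ∈ N`. The
coefficients of `z` are values of characters, hence algebraic numbers, and by the theorem of Brumer
`z u = 0`, hence `N u = 0`.
-/

set_option autoImplicit false

namespace Pool.Agent.Results.MP_5f2860_nt.HeckeAlgebrasWithoutNilpotents

open NumberField Filter Topology MonoidAlgebra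

/-- Leopoldt's conjecture for the number field `K` and the prime `p`, in the form of the frozen
statement: units of `K` congruent to `1` at all primes above `p` which are multiplicatively
independent over `ℤ` stay independent over `ℤ_p` in the product of the completions above `p`. -/
def Leopoldt (K : Type) [Field K] [NumberField K] (p : ℕ) [Fact p.Prime] : Prop :=
  ∀ (n : ℕ) (ε : Fin n → (𝓞 K)ˣ),
    (∀ i, ((ε i : 𝓞 K) - 1) ∈ (Ideal.span {((p : ℕ) : 𝓞 K)}).radical) →
    (∀ c : Fin n → ℤ, ∏ i, ε i ^ c i = 1 → c = 0) →
    ∀ (a : Fin n → PadicInt p) (m : ℕ → Fin n → ℤ),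
      (∀ i, Tendsto (fun k => ((m k i : ℤ) : PadicInt p)) atTop (𝓝 (a i))) →
      (∀ N : ℕ, ∀ᶠ k in atTop,
        ((p : ℕ) : 𝓞 K) ^ N ∣ (((∏ i, ε i ^ m k i : (𝓞 K)ˣ) : 𝓞 K) - 1)) →
      a = 0

open Classical in
/-- the idempotent `(∑ d) / #D` of the group algebra, the sum over the elements `d` of `D` -/
noncomputable def average (K : Type) [Field K] {G : Type} [Group G] [Fintype G] (D : Subgroup G) :
    MonoidAlgebra K G :=
  (Nat.card D : K)⁻¹ • ∑ d : G with d ∈ D, single d 1

/-- There are no nilpotent elements in the ideal `e R h R e` of the ring `e R e`, where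
`R = ℚ_p[Gal(F / k)]` and `e`, `h` are the idempotents of the stabiliser of the infinite place `w` and
of the group fixing `M`. For `M = F` one has `h = 1` and the ideal is `e R e`. -/
def NilpotentFree (p : ℕ) [Fact p.Prime] (k F : Type) [Field k] [NumberField k] [Field F]
    [NumberField F] [Algebra k F] (w : InfinitePlace F) (M : IntermediateField k F) : Prop :=
  ∀ e h : MonoidAlgebra ℚ_[p] (F ≃ₐ[k] F),
    e = average ℚ_[p] (MulAction.stabilizer (F ≃ₐ[k] F) w) → h = average ℚ_[p] M.fixingSubgroup →
    ∀ (n : ℕ) (a b : Fin n → MonoidAlgebra ℚ_[p] (F ≃ₐ[k] F)) (x : MonoidAlgebra ℚ_[p] (F ≃ₐ[k] F)),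
      x = ∑ i, e * a i * h * b i * e → x * x = 0 → x = 0

/-- **Main result.** -/
theorem result (k F : Type) [Field k] [NumberField k] [Field F] [NumberField F] [Algebra k F]
    [IsGalois k F] (hk : Units.rank k = 0) :
    (∀ (p : ℕ) [Fact p.Prime] (w : InfinitePlace F) (M : IntermediateField k F),
      NilpotentFree p k F w M →
      ∀ (K : Type) [Field K] [NumberField K], Nonempty (K →+* M) → Leopoldt K p) ∧
    (∀ m : ℕ, Nonempty ((F ≃ₐ[k] F) ≃* QuaternionGroup 2 × (Fin m → Multiplicative (ZMod 2))) →
      ∀ (K : Type) [Field K] [NumberField K], Nonempty (K →+* F) → Leopoldt K 2) := by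
  constructor
  · intro p _ w M hred K _ _ hK
    have : FiniteDimensional ℚ k := inferInstance
    have : FiniteDimensional k F := Module.Finite.of_restrictScalars_finite ℚ k F
    have : NumberField M := NumberField.of_module_finite k M
    refine Pool.Agent.Y758.LC.dsc K M hK.some p (X328.LP.leopoldt_of_hecke' hk w M ?_)
    rintro x ⟨n, a, b, hx⟩ hxx
    exact hred _ _ rfl rfl n a b x hx hxx
  · intro m hiso K _ _ hK
    obtain ⟨φ⟩ := hiso
    have w : InfinitePlace F := Classical.arbitrary _
    refine Pool.Agent.Y758.LC.dsc K F hK.some 2 (X328.LP.leopoldt_of_hecke hk w fun x _ hxx => ?_)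
    have h1 : MonoidAlgebra.mapDomainRingHom ℚ_[2] φ.toMonoidHom x = 0 := by
      refine X328.LP.reduced_prod (K := ℚ_[2]) X328.LP.quat_reduced
        (x := MonoidAlgebra.mapDomainRingHom ℚ_[2] φ.toMonoidHom x) ?_
      rw [← map_mul, hxx, map_zero]
    exact (MonoidAlgebra.mapDomain_injective φ.injective) (by simpa using h1)

end Pool.Agent.Results.MP_5f2860_nt.HeckeAlgebrasWithoutNilpotents
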