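import Pool.Agent.X328.LP.Min

/-!
# Norm relations and minimal counterexamples to Leopoldt's conjecture

(1) Let the subgroup `K` of the automorphism group of the number field `F` be partitioned by at least
two subgroups `H_i` (every element of `K` except `1` is in exactly one of them). Leopoldt's
conjecture holds for `F` and `p` if and only if it holds for the fixed fields of the `H_i`.

(2) If Leopoldt's conjecture fails for `F` and `p` then it fails for a subfield `M` of `F` such that it
holds for all proper subfields of `M`, and
 (a) all subgroups of the automorphism group of `M` of order `q r`, `q` and `r` prime, and all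
     commutative subgroups are cyclic, and there is at most one automorphism of order two;
 (b) `M` is not a CM-field; if `M` is Galois over `ℚ` then `M` is totally real;
 (c) if `M` is Galois over a field `k` with finitely many units, with group `G`, then `G` is not
     commutative, and for every infinite place `w` of `M` the ring `e ℚ_p[G] e`, `e` the idempotent of the
     stabiliser of `w`, has nilpotent elements.

Proof. By the theorem of helper419 Leopoldt's conjecture for `F` says that no nonzero vector of
`ℂ_p ⊗ 𝓞_F^×` is killed by all logarithms. For such a vector `v` the norm of `v` for a subgroup `P`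
comes from the fixed field of `P`, and is again killed by all logarithms. If the norms for the
`H_i` vanish then `v = 0`, because `∑_i N_{H_i} = (n - 1) + N_K`, `n` the number of the `H_i`. If the
norms vanish for all `P` of prime order then all elements of `P` but `1` act on `v` without fixed
points. (b) In a Galois extension with a single automorphism of order two, not totally real, this
is the complex conjugation for all embeddings; but that acts trivially on the units modulo torsion.
(c) is the theorem of HeckeAlgebrasWithoutNilpotents.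
-/

set_option autoImplicit false

namespace Pool.Agent.Results.MP_5f2860_nt.MinimalCounterexamples

open NumberField Filter Topology MonoidAlgebra Module

/-- Leopoldt's conjecture for the number field `K` and the prime `p`, in the form of the frozen
statement: units of `K` congruent to `1` at all primes above `p` which are multiplicatively
independent over `ℤ` stay independent over `ℤ_p` in the product of the completions above `p`. -/
def Leopoldt (K : Type) [Field K] [NumberField K] (p : ℕ) [Fact p.Prime] : Prop :=
  ∀ (n : ℕ) (ε : Fin n → (𝓞 K)ˣ),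
    (∀ i, ((ε i : 𝓞 K) - 1) ∈ (Ideal.span {((p : ℕ) : 𝓞 K)}).radical) →
    (∀ c : Fin n → ℤ, ∏ i, ε i ^ c i = 1 → c = 0) →
    ∀ (a : Fin n → PadicInt p) (m : ℕ → Fin n → ℤ),
      (∀ i, Tendsto (fun k => ((m k i : ℤ) : PadicInt p)) atTop (𝓝 (a i))) →
      (∀ N : ℕ, ∀ᶠ k in atTop,
        ((p : ℕ) : 𝓞 K) ^ N ∣ (((∏ i, ε i ^ m k i : (𝓞 K)ˣ) : 𝓞 K) - 1)) →
      a = 0

/-- The subgroups `H i` are a partition of the subgroup `K`. -/
def IsPartition {G ι : Type} [Group G] (K : Subgroup G) (H : ι → Subgroup G) : Prop :=
  (∀ i, H i ≤ K) ∧ ∀ g ∈ K, g ≠ 1 → ∃! i, g ∈ H i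

/-- the conditions (a) on a group: the subgroups of order `q r` and the commutative subgroups are
cyclic, and there is at most one element of order two -/
def GroupCondition (G : Type) [Group G] : Prop :=
  (∀ (H : Subgroup G) (q r : ℕ), q.Prime → r.Prime → Nat.card H = q * r → IsCyclic H) ∧
  (∀ H : Subgroup G, (∀ a ∈ H, ∀ b ∈ H, a * b = b * a) → IsCyclic H) ∧
  ∀ σ τ : G, orderOf σ = 2 → orderOf τ = 2 → σ = τ

open Classical in
/-- the idempotent `(∑ d) / #D` of the group algebra, the sum over the elements `d` of `D` -/
noncomputable def average (K : Type) [Field K] {G : Type} [Group G] [Fintype G] (D : Subgroup G) :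
    MonoidAlgebra K G :=
  (Nat.card D : K)⁻¹ • ∑ d : G with d ∈ D, single d 1

/-- the conditions (c): if `M / k` is Galois, where `k` has finitely many units, then the group is not
commutative, and there are nilpotent elements in `e ℚ_p[G] e` -/
def GaloisCondition (p : ℕ) [Fact p.Prime] (M : Type) [Field M] [NumberField M] : Prop :=
  ∀ (k : Type) [Field k] [NumberField k] [Algebra k M] [IsGalois k M], Units.rank k = 0 →
    (∃ g h : M ≃ₐ[k] M, g * h ≠ h * g) ∧
    ∀ (w : InfinitePlace M) (e : MonoidAlgebra ℚ_[p] (M ≃ₐ[k] M)),
      e = average ℚ_[p] (MulAction.stabilizer (M ≃ₐ[k] M) w) →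
      ∃ x : MonoidAlgebra ℚ_[p] (M ≃ₐ[k] M), x ≠ 0 ∧ e * x * e = x ∧ x * x = 0

open Pool.Agent.X328.LP in
/-- **Main result.** -/
theorem result (p : ℕ) [Fact p.Prime] (F : Type) [Field F] [NumberField F] :
    (∀ (ι : Type) [Fintype ι] (K : Subgroup (F ≃ₐ[ℚ] F)) (H : ι → Subgroup (F ≃ₐ[ℚ] F)),
      2 ≤ Fintype.card ι → IsPartition K H →
      (Leopoldt F p ↔ ∀ i, Leopoldt (IntermediateField.fixedField (H i)) p)) ∧
    (¬ Leopoldt F p → ∃ (M : Type) (_ : Field M) (_ : NumberField M),
      Nonempty (M →+* F) ∧ ¬ Leopoldt M p ∧
      (∀ (K : Type) [Field K] [NumberField K], Nonempty (K →+* M) → finrank ℚ K < finrank ℚ M →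
        Leopoldt K p) ∧
      GroupCondition (M ≃ₐ[ℚ] M) ∧ ¬ IsCMField M ∧ (IsGalois ℚ M → IsTotallyReal M) ∧
      GaloisCondition p M) := by
  constructor
  · intro ι _ K H hι hK
    constructor
    · exact fun h i => Pool.Agent.Y758.LC.dsc _ F
        (algebraMap (IntermediateField.fixedField (H i)) F) p h
    · intro h
      refine (leopoldt_iff p F).2 fun L hL x hx => ?_
      exact Pool.Agent.X328.PB.eq_zero_of_partition (rhoQ p F) H K hι hK.1 hK.2 fun i =>
        nrm_eq_zero (H i) ((leopoldt_iff p _).1 (h i)) hL hx
  · intro hF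
    classical
    have hex : ∃ n : ℕ, ∃ (M : Type) (_ : Field M) (_ : NumberField M), Nonempty (M →+* F) ∧
        ¬ Leopoldt M p ∧ finrank ℚ M = n := ⟨_, F, _, _, ⟨RingHom.id F⟩, hF, rfl⟩
    obtain ⟨M, hM1, hM2, ⟨f⟩, hM, hn⟩ := Nat.find_spec hex
    have hmin : ∀ (K : Type) [Field K] [NumberField K], Nonempty (K →+* M) →
        finrank ℚ K < finrank ℚ M → Leopoldt K p := by
      intro K _ _ hK hlt
      by_contra hcon
      rw [hn] at hlt
      exact Nat.find_min hex hlt ⟨K, _, _, ⟨f.comp hK.some⟩, hcon, rfl⟩
    obtain ⟨L, hL, v, hv, hker, h0⟩ := structure_of_failure (p := p) (F := M)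
      (fun h => hM ((leopoldt_iff p M).2 h)) (fun P hP => (leopoldt_iff p _).1
        (hmin _ ⟨algebraMap (IntermediateField.fixedField P) M⟩ (finrank_fixed_lt P hP)))
    obtain ⟨-, h2, h3, h4⟩ := Pool.Agent.X328.PB.structure_of_group (rhoQ p M) hv h0
    have hcm : ¬ IsCMField M := fun h => not_cm hv h0
    refine ⟨M, hM1, hM2, ⟨f⟩, hM, hmin, ⟨h2, h3, h4⟩, hcm, ?_, ?_⟩
    · intro hG
      by_contra hr
      exact hcm (cm_of_unique hr h4)
    · intro k _ _ _ _ hk
      refine ⟨?_, ?_⟩
      · by_contra hcon
        push Not at hcon
        exact hM (leopoldt_of_comm hk hcon)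
      · intro w e he
        by_contra hcon
        push Not at hcon
        have havg : e = avg ℚ_[p] (MulAction.stabilizer (M ≃ₐ[k] M) w) := he
        rw [havg] at hcon
        refine hM (leopoldt_of_hecke hk w fun x hx hxx => ?_)
        by_contra hx0
        exact hcon x hx0 hx hxx

end Pool.Agent.Results.MP_5f2860_nt.MinimalCounterexamples
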