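import Pool.Agent.W254.PA.LeoH

/-!
# Leopoldt relations with exponents in a finite-dimensional space come from one number field

Let `p` be a prime and `A` any subspace of the algebraic closure of `ℚ_p` which has finite dimension
over the field of algebraic numbers (for example the space spanned by `r` given `p`-adic integers).
There is one finite Galois extension `F₀` of `ℚ`, depending on `A` and `p` only, such that for all
algebraic extensions `K` of `ℚ` with `K ∩ F₀ = ℚ`, for every single embedding `σ` of `K` and all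
multiplicatively independent units `ε_1, ..., ε_r` of `K` (`r` arbitrary) there is no nontrivial
relation `∑ a_i log σ ε_i = 0` with `(a_1, ..., a_r)` proportional to a vector with entries in `A`.
In particular among the fields `K` without proper intermediate fields (for example the fields of
prime degree) only finitely many have such a relation, in any number of units.

Leopoldt's conjecture says that there are no nonzero vectors `a` of `p`-adic integers with
`∑ a_i log σ ε_i = 0` for all the embeddings `σ`.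

The theorem is proved in `Pool.Agent.W254.PA.LeoA` - `LeoH` (starting files), with the `p`-adic
hyperplane case of the linear subgroup theorem of Waldschmidt and Roy and a Galois argument.
-/

set_option autoImplicit false

namespace Pool.Agent.Results.MP_5f2860_nt.OneNumberField

open NumberField

/-- The units `ε_1, ..., ε_r` satisfy, under the embedding `σ`, a relation `∑ a_i log σ ε_i = 0` with
`a = y x`, `x_i` in `A`, and `a` not zero. -/
def HasRelation {p : ℕ} [Fact p.Prime] (L : PadicAlgCl p → PadicAlgCl p)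
    (A : Submodule (algebraicClosure ℚ (PadicAlgCl p)) (PadicAlgCl p)) {K : Type} [Field K]
    (σ : K →+* PadicAlgCl p) {r : ℕ} (ε : Fin r → (𝓞 K)ˣ) : Prop :=
  ∃ (a : Fin r → PadicAlgCl p) (y : PadicAlgCl p) (x : Fin r → PadicAlgCl p),
    a ≠ 0 ∧ (∀ i, x i ∈ A ∧ a i = y * x i) ∧ ∑ i, a i * L (σ ((ε i : 𝓞 K) : K)) = 0

/-- **Main result.** -/
theorem result (p : ℕ) [Fact p.Prime] (L : PadicAlgCl p → PadicAlgCl p)
    (hmul : ∀ x y : PadicAlgCl p, x ≠ 0 → y ≠ 0 → L (x * y) = L x + L y)
    (hprime : L ((p : ℕ) : PadicAlgCl p) = 0)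
    (hser : ∀ z : PadicAlgCl p, ‖z‖ < 1 →
      HasSum (fun n : ℕ => (-1 : PadicAlgCl p) ^ n * z ^ (n + 1) / ((n : PadicAlgCl p) + 1))
        (L (1 + z)))
    (A : Submodule (algebraicClosure ℚ (PadicAlgCl p)) (PadicAlgCl p))
    [FiniteDimensional (algebraicClosure ℚ (PadicAlgCl p)) A] :
    (∃ F₀ : IntermediateField ℚ (AlgebraicClosure ℚ), FiniteDimensional ℚ F₀ ∧ Normal ℚ F₀ ∧
      ∀ K : IntermediateField ℚ (AlgebraicClosure ℚ), K ⊓ F₀ = ⊥ →
        ∀ (σ : K →+* PadicAlgCl p) (r : ℕ) (ε : Fin r → (𝓞 K)ˣ),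
          (∀ m : Fin r → ℤ, ∏ i, ε i ^ m i = 1 → m = 0) → ¬ HasRelation L A σ ε) ∧
    {K : IntermediateField ℚ (AlgebraicClosure ℚ) |
      (∀ M : IntermediateField ℚ (AlgebraicClosure ℚ), M ≤ K → M = ⊥ ∨ M = K) ∧
        ∃ (σ : K →+* PadicAlgCl p) (r : ℕ) (ε : Fin r → (𝓞 K)ˣ),
          (∀ m : Fin r → ℤ, ∏ i, ε i ^ m i = 1 → m = 0) ∧ HasRelation L A σ ε}.Finite := by
  have h := Pool.Agent.W254.PA.almost_all (p := p) (L := L) ⟨hmul, hprime, hser⟩ A
  refine ⟨?_, h.2.subset ?_⟩
  · obtain ⟨F₀, h1, h2, h3⟩ := h.1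
    refine ⟨F₀, h1, h2, fun K hK σ r ε hε => ?_⟩
    rintro ⟨a, y, x, ha, hx, h0⟩
    exact ha (h3 K hK σ r ε hε a ⟨y, fun i => ⟨x i, (hx i).1, (hx i).2⟩⟩ h0)
  · rintro K ⟨hK, σ, r, ε, hε, a, y, x, ha, hx, h0⟩
    exact ⟨hK, σ, r, ε, a, hε, ⟨y, fun i => ⟨x i, (hx i).1, (hx i).2⟩⟩, h0, ha⟩

end Pool.Agent.Results.MP_5f2860_nt.OneNumberField
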